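import Mathlib

/-!
Row WEY of the page ghk, part 1: the Laplace integral of the Legendre functions,
`P_s = P_(-1-s)`, for the circular means of the powers of a positive quadratic form.
-/

namespace Pool.Agent.H27.L1.H47.GHK

open MeasureTheory Real

/-- the quadratic form on the circle -/
noncomputable def qc (a b c θ : ℝ) : ℝ :=
  a * cos θ ^ 2 + 2 * b * (cos θ * sin θ) + c * sin θ ^ 2

theorem qc_cont (a b c : ℝ) : Continuous (qc a b c) := by
  unfold qc
  fun_prop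

theorem qc_form (a b c : ℝ) : ∃ φ : ℝ, ∀ θ : ℝ, qc a b c θ =
    (a + c) / 2 + √(((a + c) / 2) ^ 2 - (a * c - b ^ 2)) * cos (2 * θ - φ) := by
  set z : ℂ := ⟨(a - c) / 2, b⟩ with hz
  have hn : ‖z‖ = √(((a + c) / 2) ^ 2 - (a * c - b ^ 2)) := by
    rw [Complex.norm_def, Complex.normSq_apply]
    congr 1
    simp only [hz]
    ring
  refine ⟨Complex.arg z, fun θ => ?_⟩
  have h1 : ‖z‖ * cos (Complex.arg z) = (a - c) / 2 := Complex.norm_mul_cos_arg z
  have h2 : ‖z‖ * sin (Complex.arg z) = b := Complex.norm_mul_sin_arg z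
  rw [← hn, Real.cos_sub, mul_add, ← mul_assoc, mul_comm ‖z‖ (cos (2 * θ)), mul_assoc, h1,
    ← mul_assoc, mul_comm ‖z‖ (sin (2 * θ)), mul_assoc, h2, Real.cos_two_mul, Real.sin_two_mul]
  unfold qc
  have h3 := Real.sin_sq_add_cos_sq θ
  have h4 : sin θ ^ 2 = 1 - cos θ ^ 2 := by linarith
  rw [h4]
  ring

/-- the integral over the circle depends only on the trace and the determinant -/
theorem qc_int (g : ℝ → ℂ) (a b c : ℝ) : ∫ θ in (-(π / 2))..(π / 2), g (qc a b c θ) =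
    (2 : ℝ)⁻¹ • ∫ ψ in (0 : ℝ)..(2 * π),
      g ((a + c) / 2 + √(((a + c) / 2) ^ 2 - (a * c - b ^ 2)) * cos ψ) := by
  obtain ⟨φ, hφ⟩ := qc_form a b c
  set G : ℝ → ℂ := fun ψ =>
    g ((a + c) / 2 + √(((a + c) / 2) ^ 2 - (a * c - b ^ 2)) * cos ψ) with hG
  have h1 : ∫ θ in (-(π / 2))..(π / 2), g (qc a b c θ) =
      ∫ θ in (-(π / 2))..(π / 2), G (2 * θ - φ) := by
    refine intervalIntegral.integral_congr fun θ _ => ?_
    simp only [hG, hφ θ]
  rw [h1, intervalIntegral.integral_comp_mul_sub (f := G) (c := 2) (two_ne_zero) φ]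
  have hper : Function.Periodic G (2 * π) := by
    intro ψ
    simp only [hG, Real.cos_add_two_pi]
  have h2 := hper.intervalIntegral_add_eq (2 * (-(π / 2)) - φ) 0
  have e1 : 2 * (-(π / 2)) - φ + 2 * π = 2 * (π / 2) - φ := by ring
  rw [e1, zero_add] at h2
  rw [h2]

/-- the substitution `t = tan θ` -/
theorem tan_sub (g : ℝ → ℂ) (a b c : ℝ) : ∫ θ in (-(π / 2))..(π / 2), g (qc a b c θ) =
    ∫ t : ℝ, (1 + t ^ 2)⁻¹ • g ((a + 2 * b * t + c * t ^ 2) / (1 + t ^ 2)) := by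
  rw [intervalIntegral.integral_of_le (by linarith [Real.pi_pos]),
    integral_Ioc_eq_integral_Ioo]
  have himg : Real.arctan '' Set.univ = Set.Ioo (-(π / 2)) (π / 2) := by
    rw [Set.image_univ, Real.range_arctan]
  rw [← himg, integral_image_eq_integral_abs_deriv_smul MeasurableSet.univ
    (fun t _ => (Real.hasDerivAt_arctan t).hasDerivWithinAt)
    (Real.arctan_injective.injOn), setIntegral_univ]
  refine integral_congr_ae (Filter.Eventually.of_forall fun t => ?_)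
  have hp : 0 < 1 + t ^ 2 := by positivity
  have e1 : |1 / (1 + t ^ 2)| = (1 + t ^ 2)⁻¹ := by
    rw [abs_of_pos (by positivity), one_div]
  have e2 : cos (arctan t) ^ 2 = (1 + t ^ 2)⁻¹ := by
    rw [Real.cos_sq_arctan, one_div]
  have e3 : sin (arctan t) = t * cos (arctan t) := by
    have h := Real.tan_arctan t
    rw [Real.tan_eq_sin_div_cos] at h
    have hc := Real.cos_arctan_pos t
    field_simp at h
    linarith
  have e4 : qc a b c (arctan t) = (a + 2 * b * t + c * t ^ 2) / (1 + t ^ 2) := by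
    unfold qc
    rw [e3]
    have : a * cos (arctan t) ^ 2 + 2 * b * (cos (arctan t) * (t * cos (arctan t))) +
        c * (t * cos (arctan t)) ^ 2 = (a + 2 * b * t + c * t ^ 2) * cos (arctan t) ^ 2 := by ring
    rw [this, e2, div_eq_mul_inv]
  simp only [e1, e4]

/-- the Laplace integral -/
theorem laplace {a b c : ℝ} (hc : 0 < c) (hD : 0 < a * c - b ^ 2) (s : ℂ) :
    ∫ θ in (-(π / 2))..(π / 2), ((qc a b c θ : ℝ) : ℂ) ^ s =
      ((a * c - b ^ 2 : ℝ) : ℂ) ^ (s + 1 / 2) *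
        ∫ θ in (-(π / 2))..(π / 2), ((qc a b c θ : ℝ) : ℂ) ^ (-1 - s) := by
  set D : ℝ := a * c - b ^ 2 with hDd
  -- the conjugate form
  set a' : ℝ := (c ^ 2 + b ^ 2) / c with ha'
  set b' : ℝ := -(b * √D) / c with hb'
  set c' : ℝ := D / c with hc'
  have hsq : √D ^ 2 = D := Real.sq_sqrt hD.le
  have hsp : 0 < √D := Real.sqrt_pos.mpr hD
  have htr : a' + c' = a + c := by
    rw [ha', hc', ← add_div, div_eq_iff hc.ne', hDd]
    ring
  have hdt : a' * c' - b' ^ 2 = D := by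
    rw [ha', hc', hb']
    field_simp
    rw [hsq]
    ring
  have hsame : ∫ θ in (-(π / 2))..(π / 2), ((qc a b c θ : ℝ) : ℂ) ^ (-1 - s) =
      ∫ θ in (-(π / 2))..(π / 2), ((qc a' b' c' θ : ℝ) : ℂ) ^ (-1 - s) := by
    rw [qc_int (fun x => (x : ℂ) ^ (-1 - s)) a b c, qc_int (fun x => (x : ℂ) ^ (-1 - s)) a' b' c',
      htr, hdt]
  rw [hsame, tan_sub (fun x => (x : ℂ) ^ s) a b c, tan_sub (fun x => (x : ℂ) ^ (-1 - s)) a' b' c']
  -- affine substitution
  have hsub : ∀ F : ℝ → ℂ, ∫ t : ℝ, F t = (√D / c) • ∫ u : ℝ, F (√D / c * u - b / c) := by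
    intro F
    have hk : √D / c ≠ 0 := (div_pos hsp hc).ne'
    have h1 := Measure.integral_comp_mul_left (fun x : ℝ => F (x - b / c)) (√D / c)
    rw [integral_sub_right_eq_self F (b / c)] at h1
    rw [h1, smul_smul, abs_of_pos (inv_pos.mpr (div_pos hsp hc)), mul_inv_cancel₀ hk, one_smul]
  rw [hsub, ← integral_smul, ← integral_const_mul]
  refine integral_congr_ae (Filter.Eventually.of_forall fun u => ?_)
  simp only []
  set p : ℝ := a' + 2 * b' * u + c' * u ^ 2 with hp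
  have hu : 0 < 1 + u ^ 2 := by positivity
  have hpp : 0 < p := by
    have h1 : p = (c ^ 2 + (√D * u - b) ^ 2) / c := by
      rw [hp, ha', hb', hc']
      field_simp
      linear_combination (-(u ^ 2)) * hsq
    rw [h1]
    positivity
  have f1 : 1 + (√D / c * u - b / c) ^ 2 = p / c := by
    rw [hp, ha', hb', hc']
    field_simp
    linear_combination (u ^ 2) * hsq
  have f2 : a + 2 * b * (√D / c * u - b / c) + c * (√D / c * u - b / c) ^ 2 =
      D / c * (1 + u ^ 2) := by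
    have hb2 : b ^ 2 = a * c - D := by rw [hDd]; ring
    field_simp
    ring_nf
    rw [hsq, hb2]
    ring
  rw [f1, f2]
  have f3 : D / c * (1 + u ^ 2) / (p / c) = D * (p / (1 + u ^ 2))⁻¹ := by
    field_simp
  have hq : 0 < p / (1 + u ^ 2) := div_pos hpp hu
  rw [f3, Complex.ofReal_mul, Complex.mul_cpow_ofReal_nonneg hD.le (inv_pos.mpr hq).le]
  have f4 : (((p / (1 + u ^ 2))⁻¹ : ℝ) : ℂ) ^ s = ((p / (1 + u ^ 2) : ℝ) : ℂ) ^ (-1 - s) *
      ((p / (1 + u ^ 2) : ℝ) : ℂ) := by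
    have hq0 : ((p / (1 + u ^ 2) : ℝ) : ℂ) ≠ 0 := Complex.ofReal_ne_zero.mpr hq.ne'
    have h1 : ((p / (1 + u ^ 2) : ℝ) : ℂ) ^ (-1 - s) * ((p / (1 + u ^ 2) : ℝ) : ℂ) =
        ((p / (1 + u ^ 2) : ℝ) : ℂ) ^ (-s) := by
      have : -1 - s = -s - 1 := by ring
      rw [this, Complex.cpow_sub _ _ hq0, Complex.cpow_one]
      field_simp
    rw [h1, Complex.ofReal_inv, Complex.inv_cpow, Complex.cpow_neg]
    rw [Complex.arg_ofReal_of_nonneg hq.le]
    exact Real.pi_pos.ne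
  have f5 : ((D : ℝ) : ℂ) ^ (s + 1 / 2) = (D : ℂ) ^ s * ((√D : ℝ) : ℂ) := by
    rw [Complex.cpow_add _ _ (Complex.ofReal_ne_zero.mpr hD.ne'), Real.sqrt_eq_rpow,
      Complex.ofReal_cpow hD.le]
    norm_num
  rw [f4, f5]
  simp only [Complex.real_smul]
  push_cast
  have hc0 : (c : ℂ) ≠ 0 := Complex.ofReal_ne_zero.mpr hc.ne'
  have hp0 : (p : ℂ) ≠ 0 := Complex.ofReal_ne_zero.mpr hpp.ne'
  have hu0 : (1 + (u : ℂ) ^ 2) ≠ 0 := by
    have := Complex.ofReal_ne_zero.mpr hu.ne'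
    push_cast at this
    exact this
  field_simp

end Pool.Agent.H27.L1.H47.GHK
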