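import Pool.Agent.H27.L1.H47.GHK.WEY
import Pool.Agent.H27.L1.H5.GHK.MNQ
import Pool.Agent.H27.L1.H34.GHK.FIN

/-!
Board ghk: the Weyl invariance in the form which is used by the final assembly.
-/

set_option autoImplicit false

namespace Pool.Agent.H27.L1.H47.GHK

open MeasureTheory Pool.Agent.H27.L1.H34.GM Pool.Agent.H27.L1.H34.GZ Pool.Agent.H27.L1.H34.GU

theorem c_WYE : Pool.Agent.H27.L1.H34.GHK.T_WYE := by
  intro m N _ T F lam mu σ hF
  rcases Nat.eq_zero_or_pos m with h0 | h1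
  · subst h0
    have h2 : mu ∘ σ = mu := Subsingleton.elim _ _
    rw [h2]
    exact hF
  · exact wey_eig Pool.Agent.H27.L1.H5.GHK.pf_MNQ h1 hF σ

end Pool.Agent.H27.L1.H47.GHK
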